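import Pool.Agent.H53.Kak.WCells

/-!
# Many separated directions in a small cap
-/

set_option autoImplicit false

open MeasureTheory ENNReal
open scoped RealInnerProductSpace

namespace Pool.Agent.H81.KAK

open Pool.Agent.H53.Kak

variable {d : ℕ}

lemma norm_add_perp {w u : E d} (hw : ‖w‖ = 1) (hu : ⟪w, u⟫ = 0) :
    ‖w + u‖ ^ 2 = 1 + ‖u‖ ^ 2 := by
  rw [norm_add_sq_real, hw, hu]; ring

lemma one_le_norm_add {w u : E d} (hw : ‖w‖ = 1) (hu : ⟪w, u⟫ = 0) : 1 ≤ ‖w + u‖ := by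
  have h := norm_add_perp hw hu
  have h0 : 0 ≤ ‖w + u‖ := norm_nonneg _
  nlinarith [sq_nonneg ‖u‖]

lemma norm_add_le_perp {w u : E d} (hw : ‖w‖ = 1) (hu : ⟪w, u⟫ = 0) (h1 : ‖u‖ ≤ 1 / 2) :
    ‖w + u‖ ≤ 9 / 8 := by
  have h := norm_add_perp hw hu
  have h0 : 0 ≤ ‖w + u‖ := norm_nonneg _
  have h2 : 0 ≤ ‖u‖ := norm_nonneg _
  nlinarith

lemma sep_norm {w u u' : E d} (hw : ‖w‖ = 1) (hu : ⟪w, u⟫ = 0) (hu' : ⟪w, u'⟫ = 0)
    (h1 : ‖u‖ ≤ 1 / 2) (h2 : ‖u'‖ ≤ 1 / 2) :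
    ‖u - u'‖ ≤ 3 * ‖(‖w + u‖⁻¹) • (w + u) - (‖w + u'‖⁻¹) • (w + u')‖ := by
  set r := ‖w + u‖ with hr
  set r' := ‖w + u'‖ with hr'
  have hr1 : 1 ≤ r := one_le_norm_add hw hu
  have hr1' : 1 ≤ r' := one_le_norm_add hw hu'
  have hr2 : r ≤ 9 / 8 := norm_add_le_perp hw hu h1
  have hr2' : r' ≤ 9 / 8 := norm_add_le_perp hw hu' h2
  have hr0 : 0 < r := by linarith
  have hr0' : 0 < r' := by linarith
  set f := (r⁻¹) • (w + u) with hf
  set f' := (r'⁻¹) • (w + u') with hf'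
  have hfn' : ‖f'‖ = 1 := by
    rw [hf', norm_smul, norm_inv, Real.norm_eq_abs, abs_of_pos hr0', ← hr', inv_mul_cancel₀ hr0'.ne']
  have hww : ⟪w, w⟫ = (1 : ℝ) := by rw [real_inner_self_eq_norm_sq, hw]; norm_num
  have hwf : ⟪w, f⟫ = r⁻¹ := by
    rw [hf, inner_smul_right, inner_add_right, hww, hu]; ring
  have hwf' : ⟪w, f'⟫ = r'⁻¹ := by
    rw [hf', inner_smul_right, inner_add_right, hww, hu']; ring
  have hdiff : |r⁻¹ - r'⁻¹| ≤ ‖f - f'‖ := by
    rw [← hwf, ← hwf', ← inner_sub_right]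
    have := abs_real_inner_le_norm w (f - f')
    rwa [hw, one_mul] at this
  have hrr : |r - r'| ≤ r * r' * ‖f - f'‖ := by
    have : r - r' = -(r * r') * (r⁻¹ - r'⁻¹) := by field_simp; ring
    rw [this, abs_mul, abs_neg, abs_of_pos (by positivity)]
    gcongr
  have e1 : u - u' = r • (f - f') + (r - r') • f' := by
    have h3 : r • f = w + u := by rw [hf, smul_smul, mul_inv_cancel₀ hr0.ne', one_smul]
    have h4 : r' • f' = w + u' := by rw [hf', smul_smul, mul_inv_cancel₀ hr0'.ne', one_smul]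
    calc u - u' = (w + u) - (w + u') := by abel
      _ = r • f - r' • f' := by rw [h3, h4]
      _ = _ := by module
  rw [e1]
  calc ‖r • (f - f') + (r - r') • f'‖ ≤ ‖r • (f - f')‖ + ‖(r - r') • f'‖ := norm_add_le _ _
    _ = r * ‖f - f'‖ + |r - r'| := by
        rw [norm_smul, norm_smul, hfn', mul_one, Real.norm_eq_abs, Real.norm_eq_abs,
          abs_of_pos hr0]
    _ ≤ r * ‖f - f'‖ + r * r' * ‖f - f'‖ := by gcongr
    _ ≤ 3 * ‖f - f'‖ := by
        have h5 : 0 ≤ ‖f - f'‖ := norm_nonneg _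
        have h6 : r + r * r' ≤ 3 := by nlinarith
        nlinarith

lemma close_norm {w u : E d} (hw : ‖w‖ = 1) (hu : ⟪w, u⟫ = 0) :
    ‖(‖w + u‖⁻¹) • (w + u) - w‖ ≤ 2 * ‖u‖ := by
  set r := ‖w + u‖ with hr
  have hr1 : 1 ≤ r := one_le_norm_add hw hu
  have hr0 : 0 < r := by linarith
  have h1 : ‖(r⁻¹) • (w + u) - (w + u)‖ ≤ ‖u‖ := by
    have : (r⁻¹) • (w + u) - (w + u) = (r⁻¹ - 1) • (w + u) := by module
    rw [this, norm_smul, Real.norm_eq_abs, ← hr]
    have h2 : |r⁻¹ - 1| = 1 - r⁻¹ := by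
      rw [abs_sub_comm, abs_of_nonneg]
      have := inv_le_one_of_one_le₀ hr1
      linarith
    rw [h2, sub_mul, one_mul, inv_mul_cancel₀ hr0.ne']
    have h3 : r ≤ ‖w‖ + ‖u‖ := norm_add_le _ _
    rw [hw] at h3
    linarith
  have h2 : (r⁻¹) • (w + u) - w = ((r⁻¹) • (w + u) - (w + u)) + u := by abel
  rw [h2]
  calc _ ≤ ‖(r⁻¹) • (w + u) - (w + u)‖ + ‖u‖ := norm_add_le _ _
    _ ≤ 2 * ‖u‖ := by linarith

/-- number of grid points per side -/
noncomputable def side (d : ℕ) (t : ℝ) : ℕ := ⌊t / (6 * d)⌋₊ + 1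

lemma side_pos (d : ℕ) (t : ℝ) : 0 < side d t := Nat.succ_pos _

lemma le_side (d : ℕ) (t : ℝ) : t / (6 * d) ≤ side d t := by
  rw [side]; push_cast
  exact (Nat.lt_floor_add_one _).le

/-- many `δ`-separated directions at distance at most `h` from `w` -/
lemma exists_dirs (hd : 1 ≤ d) {w : E d} (hw : ‖w‖ = 1) {h δ : ℝ} (hδ : 0 < δ) (hh : 0 < h)
    (hh1 : h ≤ 1) :
    ∃ f : (Fin d → Fin (side d (h / δ))) → E d, (∀ m, ‖f m‖ = 1) ∧ (∀ m, ‖f m - w‖ ≤ h) ∧
      ∀ m m', m ≠ m' → δ ≤ ‖f m - f m'‖ := by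
  have hd0 : (0 : ℝ) < d := by exact_mod_cast hd
  set L := side d (h / δ) with hL
  -- an orthonormal basis
  have hort : Orthonormal ℝ (({0} : Set (Fin (d + 1))).domRestrict (fun _ : Fin (d + 1) => w)) := by
    constructor
    · intro i; exact hw
    · intro i j hij
      exact absurd (Subsingleton.elim i j) hij
  obtain ⟨b, hb⟩ := hort.exists_orthonormalBasis_extension_of_card_eq
    (by rw [finrank_euclideanSpace_fin, Fintype.card_fin])
  have hb0 : b 0 = w := hb 0 rfl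
  set u : (Fin d → Fin L) → E d := fun m => ∑ i : Fin d, (3 * δ * (m i : ℝ)) • b i.succ with hu
  have hbn : ∀ i, ‖b i‖ = 1 := b.orthonormal.1
  have hcoef : ∀ m (j : Fin d), ⟪b j.succ, u m⟫ = 3 * δ * (m j : ℝ) := by
    intro m j
    simp only [hu, inner_sum, inner_smul_right]
    rw [Finset.sum_eq_single j]
    · rw [real_inner_self_eq_norm_sq, hbn]; ring
    · intro i _ hij
      rw [b.orthonormal.2 (fun h => hij (Fin.succ_injective _ h).symm), mul_zero]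
    · intro hj; exact absurd (Finset.mem_univ j) hj
  have hperp : ∀ m, ⟪w, u m⟫ = 0 := by
    intro m
    simp only [hu, inner_sum, inner_smul_right]
    apply Finset.sum_eq_zero
    intro i _
    rw [← hb0, b.orthonormal.2 (Fin.succ_ne_zero i).symm, mul_zero]
  have hsmall : ∀ m, ‖u m‖ ≤ h / 2 := by
    intro m
    have hm : ∀ i : Fin d, ‖(3 * δ * (m i : ℝ)) • b i.succ‖ ≤ h / (2 * d) := by
      intro i
      rw [norm_smul, hbn, mul_one, Real.norm_eq_abs, abs_of_nonneg (by positivity)]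
      have h1 : ((m i : ℕ) : ℝ) ≤ h / δ / (6 * d) := by
        have h2 : (m i : ℕ) ≤ ⌊h / δ / (6 * d)⌋₊ := by
          have h3 : (m i : ℕ) < L := (m i).2
          have h4 : L = ⌊h / δ / (6 * d)⌋₊ + 1 := hL
          omega
        exact (by exact_mod_cast h2 : ((m i : ℕ) : ℝ) ≤ (⌊h / δ / (6 * d)⌋₊ : ℝ)).trans
          (Nat.floor_le (by positivity))
      calc 3 * δ * ((m i : ℕ) : ℝ) ≤ 3 * δ * (h / δ / (6 * d)) := by gcongr
        _ = h / (2 * d) := by field_simp; norm_num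
    calc ‖u m‖ ≤ ∑ i : Fin d, ‖(3 * δ * (m i : ℝ)) • b i.succ‖ := norm_sum_le _ _
      _ ≤ ∑ _i : Fin d, h / (2 * d) := Finset.sum_le_sum fun i _ => hm i
      _ = h / 2 := by
          rw [Finset.sum_const, Finset.card_univ, Fintype.card_fin, nsmul_eq_mul]
          field_simp
  have hsmall' : ∀ m, ‖u m‖ ≤ 1 / 2 := fun m => (hsmall m).trans (by linarith)
  refine ⟨fun m => (‖w + u m‖⁻¹) • (w + u m), ?_, ?_, ?_⟩
  · intro m
    have h1 := one_le_norm_add hw (hperp m)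
    rw [norm_smul, norm_inv, norm_norm, inv_mul_cancel₀ (by linarith)]
  · intro m
    refine (close_norm hw (hperp m)).trans ?_
    have := hsmall m
    linarith
  · intro m m' hmm
    obtain ⟨i, hi⟩ : ∃ i, m i ≠ m' i := by
      by_contra hcon
      push Not at hcon
      exact hmm (funext hcon)
    have h1 := sep_norm hw (hperp m) (hperp m') (hsmall' m) (hsmall' m')
    have h2 : 3 * δ ≤ ‖u m - u m'‖ := by
      have h3 := abs_real_inner_le_norm (b i.succ) (u m - u m')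
      rw [hbn, one_mul, inner_sub_right, hcoef, hcoef] at h3
      refine le_trans ?_ h3
      have h4 : (1 : ℝ) ≤ |((m i : ℕ) : ℝ) - ((m' i : ℕ) : ℝ)| := by
        have h5 : ((m i : ℕ) : ℤ) - ((m' i : ℕ) : ℤ) ≠ 0 := by
          intro h6
          apply hi
          apply Fin.ext
          omega
        have h7 := Int.one_le_abs h5
        exact_mod_cast h7
      calc 3 * δ = 3 * δ * 1 := by ring
        _ ≤ 3 * δ * |((m i : ℕ) : ℝ) - ((m' i : ℕ) : ℝ)| := by gcongr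
        _ = |3 * δ * ((m i : ℕ) : ℝ) - 3 * δ * ((m' i : ℕ) : ℝ)| := by
            rw [← mul_sub, abs_mul, abs_of_pos (by positivity : (0 : ℝ) < 3 * δ)]
    simp only
    linarith

end Pool.Agent.H81.KAK
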