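import Pool.Agent.H81.KAK.Zoom

/-!
# From bounds in a small ball to bounds for whole tubes
-/

set_option autoImplicit false

open MeasureTheory ENNReal
open scoped RealInnerProductSpace ContDiff

namespace Pool.Agent.H81.KAK

open Pool.Agent.H53.Kak

variable {d : ℕ}

/-- moving a tube into the window -/
lemma recenter {s κ : ℝ} (hκ : κ ≤ 1 / 8) {c e x x0 p : E d} (he : ‖e‖ = 1) {t : ℝ}
    (hp : p = c + t • e) (hxp : ‖x0 - p‖ ≤ κ) (hx : ‖x - x0‖ ≤ κ) (hmem : x ∈ tube s c e) :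
    ‖c + ⟪x0 - c, e⟫ • e - x0‖ ≤ κ ∧
      x - x0 ∈ tube s (c + ⟪x0 - c, e⟫ • e - x0) e := by
  have hee : ⟪e, e⟫ = (1 : ℝ) := by rw [real_inner_self_eq_norm_sq, he]; norm_num
  have e1 : (x - x0) - (c + ⟪x0 - c, e⟫ • e - x0) = (x - c) - ⟪x0 - c, e⟫ • e := by abel
  have e2 : ⟪(x - c) - ⟪x0 - c, e⟫ • e, e⟫ = ⟪x - x0, e⟫ := by
    rw [inner_sub_left, inner_smul_left, hee]
    simp only [conj_trivial, mul_one]
    rw [← inner_sub_left]
    congr 1
    abel
  refine ⟨?_, ?_, ?_⟩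
  · have h1 : c + ⟪x0 - c, e⟫ • e - x0 = -((x0 - c) - ⟪x0 - c, e⟫ • e) := by abel
    rw [h1, norm_neg]
    refine (perp_le he t).trans ?_
    have h2 : x0 - c - t • e = x0 - p := by rw [hp]; abel
    rw [h2]
    exact hxp
  · rw [e1, e2]
    have h1 := abs_real_inner_le_norm (x - x0) e
    rw [he, mul_one] at h1
    linarith
  · rw [e1, e2]
    have h1 : (x - c) - ⟪x0 - c, e⟫ • e - ⟪x - x0, e⟫ • e = (x - c) - ⟪x - c, e⟫ • e := by
      have h2 : ⟪x - c, e⟫ = ⟪x0 - c, e⟫ + ⟪x - x0, e⟫ := by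
        rw [← inner_add_left]; congr 1; abel
      rw [h2]; module
    rw [h1]
    exact hmem.2

/-- the radius of the cells -/
noncomputable def hh (d : ℕ) (κ : ℝ) : ℝ := κ / (2 * ((d : ℝ) + 1))

/-- the number of pieces -/
noncomputable def KK (d : ℕ) (κ : ℝ) : ℕ := ⌈2 / hh d κ⌉₊ + 2

lemma hh_pos {κ : ℝ} (hκ : 0 < κ) : 0 < hh d κ := by unfold hh; positivity

/-- every point of the tube is near one of the pieces -/
lemma exists_piece {κ s : ℝ} (hκ : 0 < κ) (hsh : s ≤ hh d κ / 2) {c e x : E d} (he : ‖e‖ = 1)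
    (hmem : x ∈ tube s c e) :
    ∃ m ∈ Finset.range (KK d κ), ‖x - (c + (-(1 / 2) + m * (hh d κ / 2)) • e)‖ < hh d κ := by
  have hh0 := hh_pos (d := d) hκ
  set h := hh d κ with hdef
  set t : ℝ := ⟪x - c, e⟫ with ht
  have ht1 : |t| ≤ 1 / 2 := hmem.1
  rw [abs_le] at ht1
  have hu : 0 ≤ (t + 1 / 2) / (h / 2) := by
    apply div_nonneg _ (by positivity)
    linarith
  refine ⟨⌊(t + 1 / 2) / (h / 2)⌋₊, ?_, ?_⟩
  · rw [Finset.mem_range, KK, ← hdef]
    have h1 : (t + 1 / 2) / (h / 2) ≤ 2 / h := by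
      rw [div_le_div_iff₀ (by positivity) hh0]
      nlinarith
    have h2 : ⌊(t + 1 / 2) / (h / 2)⌋₊ ≤ ⌈2 / h⌉₊ := by
      calc ⌊(t + 1 / 2) / (h / 2)⌋₊ ≤ ⌊2 / h⌋₊ := Nat.floor_le_floor h1
        _ ≤ ⌈2 / h⌉₊ := Nat.floor_le_ceil _
    omega
  · set m := ⌊(t + 1 / 2) / (h / 2)⌋₊ with hm
    have h1 : (m : ℝ) ≤ (t + 1 / 2) / (h / 2) := Nat.floor_le hu
    have h2 : (t + 1 / 2) / (h / 2) < m + 1 := Nat.lt_floor_add_one _
    rw [le_div_iff₀ (by positivity)] at h1
    rw [div_lt_iff₀ (by positivity)] at h2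
    have h3 : x - (c + (-(1 / 2) + m * (h / 2)) • e) =
        (t - (-(1 / 2) + m * (h / 2))) • e + ((x - c) - t • e) := by module
    rw [h3]
    have h4 : |t - (-(1 / 2) + m * (h / 2))| < h / 2 := by
      rw [abs_lt]
      constructor <;> nlinarith
    calc _ ≤ ‖(t - (-(1 / 2) + m * (h / 2))) • e‖ + ‖(x - c) - t • e‖ := norm_add_le _ _
      _ = |t - (-(1 / 2) + m * (h / 2))| + ‖(x - c) - t • e‖ := by
          rw [norm_smul, he, mul_one, Real.norm_eq_abs]
      _ < h / 2 + h / 2 := add_lt_add_of_lt_of_le h4 (hmem.2.trans hsh)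
      _ = h := by ring

/-- the corner of a cell is close to every point whose cell is a neighbour -/
lemma corner_near {h : ℝ} (hh : 0 < h) {k : Fin (d + 1) → ℤ} {p : E d} (hk : k ∈ nearCells h p) :
    ‖(WithLp.toLp 2 (fun i => h * (k i : ℝ)) : E d) - p‖ ≤ (d + 1) * (2 * h) := by
  apply norm_le_of_coord (by positivity)
  intro i
  rw [nearCells, Fintype.mem_piFinset] at hk
  have h1 := hk i
  rw [Finset.mem_Icc] at h1
  have h2 := Int.floor_le (p i / h)
  have h3 := Int.lt_floor_add_one (p i / h)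
  rw [le_div_iff₀ hh] at h2
  rw [div_lt_iff₀ hh] at h3
  rw [PiLp.sub_apply, abs_le]
  have h4 : ((⌊p i / h⌋ : ℝ) - 1) ≤ (k i : ℝ) := by exact_mod_cast h1.1
  have h5 : (k i : ℝ) ≤ (⌊p i / h⌋ : ℝ) + 1 := by exact_mod_cast h1.2
  constructor
  · show -(2 * h) ≤ h * (k i : ℝ) - p i
    nlinarith
  · show h * (k i : ℝ) - p i ≤ 2 * h
    nlinarith

lemma corner_cell {h : ℝ} (hh : 0 < h) {k : Fin (d + 1) → ℤ} {x : E d} (hx : x ∈ (cell h k : Set (E d))) :
    ‖x - (WithLp.toLp 2 (fun i => h * (k i : ℝ)) : E d)‖ ≤ (d + 1) * h := by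
  apply norm_le_of_coord hh.le
  intro i
  have h1 := hx i
  rw [Int.floor_eq_iff] at h1
  rw [le_div_iff₀ hh, div_lt_iff₀ hh] at h1
  rw [PiLp.sub_apply, abs_le]
  constructor
  · have : h * (k i : ℝ) ≤ x i := by linarith [h1.1]
    show -h ≤ x i - h * k i
    linarith
  · show x i - h * k i ≤ h
    nlinarith [h1.2]

open Classical in
/-- gluing the local bounds -/
lemma glue {ι : Type} {q κ s B : ℝ} (hd : 1 ≤ d) (hq : 1 + 1 / (d : ℝ) ≤ q) (hκ : 0 < κ)
    (hκ8 : κ ≤ 1 / 8) (hsh : s ≤ hh d κ / 2) (hB : 0 ≤ B) (S : Finset ι)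
    (c e : ι → E d) (hF : Fam s e S)
    (hloc : ∀ S' ⊆ S, ∀ b : ι → E d, (∀ i ∈ S', ‖b i‖ ≤ κ) →
      ∫⁻ y in Metric.closedBall 0 κ, (mu s b e S' y : ℝ≥0∞) ^ q ≤
        ENNReal.ofReal (B * (S'.card : ℝ) ^ (q - 1 / (d : ℝ)))) :
    ∫⁻ x, (mu s c e S x : ℝ≥0∞) ^ q ≤
      ENNReal.ofReal (B * ((KK d κ * 3 ^ (d + 1) : ℝ) * (S.card : ℝ)) ^ (q - 1 / (d : ℝ))) := by
  have hd0 : (0 : ℝ) < d := by exact_mod_cast hd
  have hinv : 0 < 1 / (d : ℝ) := by positivity
  have hq1 : 1 < q := by linarith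
  have hq0 : 0 < q := by linarith
  have ha : 1 ≤ q - 1 / d := by linarith
  have hh0 := hh_pos (d := d) hκ
  set h := hh d κ with hdef
  have hhκ : (d + 1) * (2 * h) = κ := by
    rw [hdef, hh]; field_simp
  have hhκ' : (d + 1) * h ≤ κ := by
    have : 0 < ((d : ℝ) + 1) * h := by positivity
    nlinarith
  set p : ι → ℕ → E d := fun j m => c j + (-(1 / 2) + m * (h / 2)) • e j with hp
  set near : ι → Finset (Fin (d + 1) → ℤ) := fun j =>
    (Finset.range (KK d κ)).biUnion (fun m => nearCells h (p j m)) with hnear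
  set Qs : Finset (Fin (d + 1) → ℤ) := S.biUnion near with hQs
  set Jk : (Fin (d + 1) → ℤ) → Finset ι := fun k => S.filter (fun j => k ∈ near j) with hJk
  have hcardnear : ∀ j, (near j).card ≤ KK d κ * 3 ^ (d + 1) := by
    intro j
    refine Finset.card_biUnion_le.trans ?_
    simp_rw [card_nearCells]
    rw [Finset.sum_const, Finset.card_range, smul_eq_mul]
  -- every tube through `x` is recorded in the cell of `x`
  have hrec : ∀ x k, x ∈ (cell h k : Set (E d)) → ∀ j ∈ S, x ∈ tube s (c j) (e j) → k ∈ near j := by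
    intro x k hx j hj hmem
    obtain ⟨m, hm, hlt⟩ := exists_piece hκ hsh (hF.unit j hj) hmem
    obtain ⟨k', hk', hxk'⟩ := mem_nearCells hh0 hlt
    have : k = k' := by
      funext i
      rw [← hx i, ← hxk' i]
    rw [this, hnear]
    simp only [Finset.mem_biUnion]
    exact ⟨m, hm, hk'⟩
  -- pointwise bound
  have hpt : ∀ x, (mu s c e S x : ℝ≥0∞) ^ q ≤
      ∑ k ∈ Qs, (cell h k : Set (E d)).indicator (fun x => (mu s c e (Jk k) x : ℝ≥0∞) ^ q) x := by
    intro x
    rcases Nat.eq_zero_or_pos (mu s c e S x) with h0 | hpos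
    · rw [h0, Nat.cast_zero, ENNReal.zero_rpow_of_pos hq0]
      exact bot_le
    set k : Fin (d + 1) → ℤ := fun i => ⌊x i / h⌋ with hk
    have hxk : x ∈ (cell h k : Set (E d)) := fun i => rfl
    have hmem : k ∈ Qs := by
      have hpos' := Finset.card_pos.1 hpos
      obtain ⟨j, hj⟩ := hpos'
      rw [Finset.mem_filter] at hj
      rw [hQs, Finset.mem_biUnion]
      exact ⟨j, hj.1, hrec x k hxk j hj.1 hj.2⟩
    have hle : mu s c e S x ≤ mu s c e (Jk k) x := by
      unfold mu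
      apply Finset.card_le_card
      intro j hj
      rw [Finset.mem_filter] at hj
      rw [Finset.mem_filter, hJk, Finset.mem_filter]
      exact ⟨⟨hj.1, hrec x k hxk j hj.1 hj.2⟩, hj.2⟩
    refine le_trans ?_ (Finset.single_le_sum (f := fun k => (cell h k : Set (E d)).indicator
      (fun x => (mu s c e (Jk k) x : ℝ≥0∞) ^ q) x) (fun _ _ => bot_le) hmem)
    rw [Set.indicator_of_mem hxk]
    apply ENNReal.rpow_le_rpow _ hq0.le
    exact_mod_cast hle
  -- each cell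
  have hcell : ∀ k ∈ Qs, ∫⁻ x in cell h k, (mu s c e (Jk k) x : ℝ≥0∞) ^ q ≤
      ENNReal.ofReal (B * ((Jk k).card : ℝ) ^ (q - 1 / (d : ℝ))) := by
    intro k _
    set x0 : E d := WithLp.toLp 2 (fun i => h * (k i : ℝ)) with hx0
    set b : ι → E d := fun j => c j + ⟪x0 - c j, e j⟫ • e j - x0 with hb
    have hJS : Jk k ⊆ S := Finset.filter_subset _ _
    have hJp : ∀ j ∈ Jk k, ∃ t : ℝ, ‖x0 - (c j + t • e j)‖ ≤ κ := by
      intro j hj
      rw [hJk, Finset.mem_filter, hnear, Finset.mem_biUnion] at hj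
      obtain ⟨-, m, -, hm⟩ := hj
      exact ⟨_, (corner_near hh0 hm).trans hhκ.le⟩
    have hbn : ∀ j ∈ Jk k, ‖b j‖ ≤ κ := by
      intro j hj
      obtain ⟨t, ht⟩ := hJp j hj
      have h1 : b j = -((x0 - c j) - ⟪x0 - c j, e j⟫ • e j) := by simp only [hb]; abel
      rw [h1, norm_neg]
      refine (perp_le (hF.unit j (hJS hj)) t).trans ?_
      have h2 : x0 - c j - t • e j = x0 - (c j + t • e j) := by abel
      rw [h2]
      exact ht
    have hle : ∀ x ∈ (cell h k : Set (E d)), (mu s c e (Jk k) x : ℝ≥0∞) ^ q ≤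
        (Metric.closedBall (0 : E d) κ).indicator (fun y => (mu s b e (Jk k) y : ℝ≥0∞) ^ q)
          (x - x0) := by
      intro x hx
      have hxx0 : ‖x - x0‖ ≤ κ := (corner_cell hh0 hx).trans hhκ'
      rw [Set.indicator_of_mem (by rw [Metric.mem_closedBall, dist_zero_right]; exact hxx0)]
      apply ENNReal.rpow_le_rpow _ hq0.le
      have : mu s c e (Jk k) x ≤ mu s b e (Jk k) (x - x0) := by
        unfold mu
        apply Finset.card_le_card
        intro j hj
        rw [Finset.mem_filter] at hj ⊢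
        obtain ⟨t, ht⟩ := hJp j hj.1
        exact ⟨hj.1, (recenter hκ8 (hF.unit j (hJS hj.1)) rfl ht hxx0 hj.2).2⟩
      exact_mod_cast this
    calc ∫⁻ x in cell h k, (mu s c e (Jk k) x : ℝ≥0∞) ^ q
        ≤ ∫⁻ x in cell h k, (Metric.closedBall (0 : E d) κ).indicator
            (fun y => (mu s b e (Jk k) y : ℝ≥0∞) ^ q) (x - x0) :=
          setLIntegral_mono' (measurableSet_cell h k) hle
      _ ≤ ∫⁻ x, (Metric.closedBall (0 : E d) κ).indicator
            (fun y => (mu s b e (Jk k) y : ℝ≥0∞) ^ q) (x - x0) := setLIntegral_le_lintegral _ _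
      _ = ∫⁻ y, (Metric.closedBall (0 : E d) κ).indicator
            (fun y => (mu s b e (Jk k) y : ℝ≥0∞) ^ q) y :=
          lintegral_sub_right_eq_self (fun y => (Metric.closedBall (0 : E d) κ).indicator
            (fun y => (mu s b e (Jk k) y : ℝ≥0∞) ^ q) y) x0
      _ = ∫⁻ y in Metric.closedBall 0 κ, (mu s b e (Jk k) y : ℝ≥0∞) ^ q :=
          lintegral_indicator Metric.isClosed_closedBall.measurableSet _
      _ ≤ _ := hloc (Jk k) hJS b hbn
  -- counting
  have hcount : ∑ k ∈ Qs, ((Jk k).card : ℝ) ≤ (KK d κ * 3 ^ (d + 1) : ℝ) * (S.card : ℝ) := by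
    have h1 : ∑ k ∈ Qs, (Jk k).card = ∑ j ∈ S, (near j).card := by
      simp_rw [Finset.card_eq_sum_ones]
      symm
      apply Finset.sum_comm'
      intro j k
      simp only [hQs, hJk, Finset.mem_biUnion, Finset.mem_filter]
      constructor
      · rintro ⟨h1, h2⟩
        exact ⟨⟨h1, h2⟩, j, h1, h2⟩
      · rintro ⟨⟨h1, h2⟩, -⟩
        exact ⟨h1, h2⟩
    have h2 : ∑ j ∈ S, (near j).card ≤ ∑ _j ∈ S, KK d κ * 3 ^ (d + 1) :=
      Finset.sum_le_sum (fun j _ => hcardnear j)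
    rw [Finset.sum_const, smul_eq_mul] at h2
    have h3 : ((∑ k ∈ Qs, (Jk k).card : ℕ) : ℝ) ≤ (S.card : ℝ) * (KK d κ * 3 ^ (d + 1) : ℝ) := by
      rw [h1]; exact_mod_cast h2
    push_cast at h3
    linarith
  calc ∫⁻ x, (mu s c e S x : ℝ≥0∞) ^ q
      ≤ ∫⁻ x, ∑ k ∈ Qs, (cell h k : Set (E d)).indicator
          (fun x => (mu s c e (Jk k) x : ℝ≥0∞) ^ q) x := lintegral_mono hpt
    _ = ∑ k ∈ Qs, ∫⁻ x, (cell h k : Set (E d)).indicator
          (fun x => (mu s c e (Jk k) x : ℝ≥0∞) ^ q) x := by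
        apply lintegral_finsetSum
        intro k _
        exact ((measurable_muE _ _ _ _).pow_const q).indicator (measurableSet_cell h k)
    _ = ∑ k ∈ Qs, ∫⁻ x in cell h k, (mu s c e (Jk k) x : ℝ≥0∞) ^ q := by
        apply Finset.sum_congr rfl
        intro k _
        exact lintegral_indicator (measurableSet_cell h k) _
    _ ≤ ∑ k ∈ Qs, ENNReal.ofReal (B * ((Jk k).card : ℝ) ^ (q - 1 / (d : ℝ))) :=
        Finset.sum_le_sum hcell
    _ = ENNReal.ofReal (∑ k ∈ Qs, B * ((Jk k).card : ℝ) ^ (q - 1 / (d : ℝ))) :=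
        (ENNReal.ofReal_sum_of_nonneg (fun k _ => by positivity)).symm
    _ ≤ _ := by
        apply ENNReal.ofReal_le_ofReal
        rw [← Finset.mul_sum]
        apply mul_le_mul_of_nonneg_left _ hB
        refine (sum_rpow_le_rpow_sum Qs (fun k => ((Jk k).card : ℝ))
          (fun k _ => by positivity) ha).trans ?_
        apply Real.rpow_le_rpow (Finset.sum_nonneg fun k _ => by positivity) hcount (by linarith)

/-- trivial bound for thick tubes -/
lemma thick {ι : Type} {q s h : ℝ} (hd : 1 ≤ d) (hq : 1 ≤ q) (hh : 0 < h) (hs : h ≤ s)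
    (hs1 : s < 1) (S : Finset ι) (c e : ι → E d) (hF : Fam s e S) :
    ∫⁻ x, (mu s c e S x : ℝ≥0∞) ^ q ≤
      ENNReal.ofReal ((2 ^ d * (CG d * 3 ^ d * (h ^ d)⁻¹) ^ (1 / (d : ℝ))) *
        (s ^ d * (S.card : ℝ) ^ (q - 1 / (d : ℝ)))) := by
  have hd0 : (0 : ℝ) < d := by exact_mod_cast hd
  have hs0 : 0 < s := hh.trans_le hs
  have hG := CG_pos d
  rcases Nat.eq_zero_or_pos S.card with h0 | hpos
  · have h1 : ∀ x, (mu s c e S x : ℝ≥0∞) ^ q = 0 := by
      intro x
      have := mu_le_card s c e S x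
      rw [h0] at this
      have h2 : mu s c e S x = 0 := by omega
      rw [h2, Nat.cast_zero, ENNReal.zero_rpow_of_pos (by linarith)]
    simp_rw [h1]
    simp
  have hNr : (0 : ℝ) < S.card := by exact_mod_cast hpos
  have hN := card_le_all hs0 hs1 hF
  have h1 : ∀ x, (mu s c e S x : ℝ≥0∞) ^ q ≤
      ENNReal.ofReal ((S.card : ℝ) ^ (q - 1)) * (1 * (mu s c e S x : ℝ≥0∞)) := by
    intro x
    rw [one_mul]
    rcases Nat.eq_zero_or_pos (mu s c e S x) with h0 | hp
    · rw [h0, Nat.cast_zero, ENNReal.zero_rpow_of_pos (by linarith)]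
      exact bot_le
    have hmr : (0 : ℝ) < mu s c e S x := by exact_mod_cast hp
    have hle : (mu s c e S x : ℝ) ≤ S.card := by exact_mod_cast mu_le_card s c e S x
    rw [← ENNReal.ofReal_natCast, ENNReal.ofReal_rpow_of_nonneg hmr.le (by linarith),
      ← ENNReal.ofReal_mul (by positivity)]
    apply ENNReal.ofReal_le_ofReal
    calc (mu s c e S x : ℝ) ^ q = (mu s c e S x : ℝ) ^ (q - 1) * (mu s c e S x : ℝ) := by
          rw [← Real.rpow_add_one hmr.ne']; congr 1; ring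
      _ ≤ (S.card : ℝ) ^ (q - 1) * (mu s c e S x : ℝ) := by
          apply mul_le_mul_of_nonneg_right _ hmr.le
          exact Real.rpow_le_rpow hmr.le hle (by linarith)
  calc ∫⁻ x, (mu s c e S x : ℝ≥0∞) ^ q
      ≤ ∫⁻ x, ENNReal.ofReal ((S.card : ℝ) ^ (q - 1)) * (1 * (mu s c e S x : ℝ≥0∞)) :=
        lintegral_mono h1
    _ = ENNReal.ofReal ((S.card : ℝ) ^ (q - 1)) * ∫⁻ x, 1 * (mu s c e S x : ℝ≥0∞) := by
        rw [lintegral_const_mul]
        simp only [one_mul]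
        exact measurable_muE _ _ _ _
    _ = ENNReal.ofReal ((S.card : ℝ) ^ (q - 1)) *
          ∑ i ∈ S, ∫⁻ x in tube s (c i) (e i), 1 := by
        rw [← sum_setLIntegral s c e S (fun _ => 1) measurable_const]
    _ ≤ ENNReal.ofReal ((S.card : ℝ) ^ (q - 1)) * ∑ _i ∈ S, ENNReal.ofReal ((2 * s) ^ d) := by
        gcongr with i hi
        rw [setLIntegral_one]
        exact volume_tube_le s hs0.le (c i) (e i) (hF.unit i hi)
    _ = ENNReal.ofReal ((S.card : ℝ) ^ (q - 1) * ((S.card : ℝ) * (2 * s) ^ d)) := by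
        rw [Finset.sum_const, nsmul_eq_mul, ← ENNReal.ofReal_natCast,
          ← ENNReal.ofReal_mul (by positivity), ← ENNReal.ofReal_mul (by positivity)]
    _ ≤ _ := by
        apply ENNReal.ofReal_le_ofReal
        have e1 : (S.card : ℝ) ^ (q - 1) * ((S.card : ℝ) * (2 * s) ^ d) =
            (S.card : ℝ) ^ (1 / (d : ℝ)) * 2 ^ d * (s ^ d * (S.card : ℝ) ^ (q - 1 / (d : ℝ))) := by
          have h2 : (S.card : ℝ) ^ (q - 1) * (S.card : ℝ) =
              (S.card : ℝ) ^ (1 / (d : ℝ)) * (S.card : ℝ) ^ (q - 1 / (d : ℝ)) := by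
            rw [← Real.rpow_add_one hNr.ne', ← Real.rpow_add hNr]
            congr 1; ring
          calc (S.card : ℝ) ^ (q - 1) * ((S.card : ℝ) * (2 * s) ^ d)
              = ((S.card : ℝ) ^ (q - 1) * (S.card : ℝ)) * (2 ^ d * s ^ d) := by
                rw [mul_pow]; ring
            _ = _ := by rw [h2]; ring
        rw [e1]
        have h3 : (S.card : ℝ) ≤ CG d * 3 ^ d * (h ^ d)⁻¹ := by
          refine hN.trans ?_
          gcongr
        have h4 : (S.card : ℝ) ^ (1 / (d : ℝ)) ≤ (CG d * 3 ^ d * (h ^ d)⁻¹) ^ (1 / (d : ℝ)) :=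
          Real.rpow_le_rpow hNr.le h3 (by positivity)
        apply mul_le_mul_of_nonneg_right _ (by positivity)
        rw [mul_comm]
        gcongr

/-- For families on one smooth line congruence the losses are as for all families. -/
theorem loss_of_smooth {k : ℕ} {η q : ℝ} (hd : 1 ≤ d) (hq : 1 + 1 / (d : ℝ) ≤ q) (hη : 0 < η)
    (h : ∀ ε : ℝ, 0 < ε → ∃ C : ℝ, SmoothLoss d k η q ε C) {ε : ℝ} (hε : 0 < ε) :
    ∃ C : ℝ, Loss d q ε C := by
  have hd0 : (0 : ℝ) < d := by exact_mod_cast hd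
  have hinv : 0 < 1 / (d : ℝ) := by positivity
  have hq1 : 1 < q := by linarith
  have hq0 : 0 < q := by linarith
  have hG := CG_pos d
  obtain ⟨κ, hκ, hκ8, hmap⟩ := exists_map d k hη
  obtain ⟨C0, hC0⟩ := h (ε / (k + 1)) (by positivity)
  set C1 : ℝ := max C0 0 with hC1
  have hC10 : 0 ≤ C1 := le_max_right _ _
  have hC1s : SmoothLoss d k η q (ε / (k + 1)) C1 := by
    intro δ hδ hδ1 ι S e a hF ha1 ha2
    refine (hC0 δ hδ hδ1 ι S e a hF ha1 ha2).trans (ENNReal.ofReal_le_ofReal ?_)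
    gcongr
    exact le_max_left _ _
  have hKZ := KZ_nonneg d
  set A : ℝ := KZ d * (C1 * 2 ^ (ε / (k + 1))) ^ q * (KK d κ * 3 ^ (d + 1) : ℝ) ^ (q - 1 / (d : ℝ))
    with hA
  have hA0 : 0 ≤ A := by positivity
  have hh0 := hh_pos (d := d) hκ
  set A2 : ℝ := 2 ^ d * (CG d * 3 ^ d * ((hh d κ / 2) ^ d)⁻¹) ^ (1 / (d : ℝ)) with hA2
  have hA20 : 0 ≤ A2 := by positivity
  refine ⟨(A + A2) ^ (1 / q), ?_⟩
  intro s hs hs1 ι S c e hF
  have hsε : 1 ≤ s ^ (-ε) := Real.one_le_rpow_of_pos_of_le_one_of_nonpos hs hs1.le (by linarith)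
  have hmain : ∫⁻ x, (mu s c e S x : ℝ≥0∞) ^ q ≤
      ENNReal.ofReal ((A + A2) * (s ^ (-ε)) ^ q * (s ^ d * (S.card : ℝ) ^ (q - 1 / (d : ℝ)))) := by
    have hsq : 1 ≤ (s ^ (-ε)) ^ q := Real.one_le_rpow hsε hq0.le
    rcases le_total s (hh d κ / 2) with hsh | hsh
    · have hg := glue (B := KZ d * (C1 * 2 ^ (ε / (k + 1)) * s ^ (-ε)) ^ q * s ^ d) hd hq hκ hκ8 hsh
        (by positivity) S c e hF (by
          intro S' hS' b hb
          have h1 := zoom_core hd hq1.le hC10 hκ8 hmap hC1s hs hs1 S' e b (hF.mono hS') hb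
          refine h1.trans (le_of_eq ?_)
          congr 1
          have e1 : (2 * (s ^ k / 4) * s) ^ (-(ε / ((k : ℝ) + 1))) =
              2 ^ (ε / ((k : ℝ) + 1)) * s ^ (-ε) := by
            have e2 : 2 * (s ^ k / 4) * s = 2⁻¹ * s ^ (k + 1) := by ring
            rw [e2, Real.mul_rpow (by norm_num) (by positivity), Real.inv_rpow (by norm_num),
              Real.rpow_neg (by norm_num), inv_inv, ← Real.rpow_natCast s (k + 1),
              ← Real.rpow_mul hs.le]
            congr 2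
            push_cast
            field_simp
          rw [e1]
          ring_nf)
      refine hg.trans (ENNReal.ofReal_le_ofReal ?_)
      rw [Real.mul_rpow (z := q - 1 / (d : ℝ)) (by positivity) (by positivity),
        Real.mul_rpow (x := C1 * 2 ^ (ε / ((k : ℝ) + 1))) (z := q) (by positivity)
        (by positivity)]
      have e3 : KZ d * ((C1 * 2 ^ (ε / ((k : ℝ) + 1))) ^ q * (s ^ (-ε)) ^ q) * s ^ d *
          ((KK d κ * 3 ^ (d + 1) : ℝ) ^ (q - 1 / (d : ℝ)) * (S.card : ℝ) ^ (q - 1 / (d : ℝ))) =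
          A * (s ^ (-ε)) ^ q * (s ^ d * (S.card : ℝ) ^ (q - 1 / (d : ℝ))) := by
        rw [hA]; ring
      rw [e3]
      gcongr
      linarith
    · have ht := thick hd hq1.le (by positivity) hsh hs1 S c e hF
      refine ht.trans (ENNReal.ofReal_le_ofReal ?_)
      apply mul_le_mul_of_nonneg_right _ (by positivity)
      calc A2 = A2 * 1 := by ring
        _ ≤ (A + A2) * (s ^ (-ε)) ^ q := by
            apply mul_le_mul _ hsq (by norm_num) (by positivity)
            linarith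
  rw [eLpNorm_mu s c e S hq0]
  calc (∫⁻ x, (mu s c e S x : ℝ≥0∞) ^ q) ^ (1 / q)
      ≤ (ENNReal.ofReal ((A + A2) * (s ^ (-ε)) ^ q *
          (s ^ d * (S.card : ℝ) ^ (q - 1 / (d : ℝ))))) ^ (1 / q) :=
        ENNReal.rpow_le_rpow hmain (by positivity)
    _ = ENNReal.ofReal (((A + A2) * (s ^ (-ε)) ^ q *
          (s ^ d * (S.card : ℝ) ^ (q - 1 / (d : ℝ)))) ^ (1 / q)) :=
        ENNReal.ofReal_rpow_of_nonneg (by positivity) (by positivity)
    _ = _ := by
        congr 1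
        rw [Real.mul_rpow (by positivity) (by positivity), Real.mul_rpow (by positivity)
          (by positivity), Real.mul_rpow (x := s ^ d) (by positivity) (by positivity)]
        have e1 : ((s ^ (-ε)) ^ q) ^ (1 / q) = s ^ (-ε) := by
          rw [← Real.rpow_mul (by positivity), mul_one_div_cancel hq0.ne', Real.rpow_one]
        have e2 : (s ^ d) ^ (1 / q) = s ^ ((d : ℝ) / q) := by
          rw [← Real.rpow_natCast s d, ← Real.rpow_mul hs.le]
          congr 1; ring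
        have e3 : ((S.card : ℝ) ^ (q - 1 / (d : ℝ))) ^ (1 / q) =
            (S.card : ℝ) ^ (1 - 1 / (q * d)) := by
          rw [← Real.rpow_mul (by positivity)]
          congr 1; field_simp
        rw [e1, e2, e3]

end Pool.Agent.H81.KAK
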