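import Pool.Agent.H53.Kak.Basic

/-!
# A smooth map with small derivatives which takes prescribed values on small caps
-/

set_option autoImplicit false

open MeasureTheory ENNReal
open scoped RealInnerProductSpace ContDiff

namespace Pool.Agent.H81.KAK

open Pool.Agent.H53.Kak

variable {d : ℕ}

lemma exists_bump (d k : ℕ) : ∃ (φ : E d → ℝ) (B : ℝ), ContDiff ℝ ∞ φ ∧
    (∀ x, ‖x‖ ≤ 1 / 4 → φ x = 1) ∧ (∀ x, 3 / 8 < ‖x‖ → ∀ j, iteratedFDeriv ℝ j φ x = 0) ∧
    (∀ x, 3 / 8 < ‖x‖ → φ x = 0) ∧ 1 ≤ B ∧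
    ∀ j ≤ k, ∀ x, ‖iteratedFDeriv ℝ j φ x‖ ≤ B := by
  let f : ContDiffBump (0 : E d) := ⟨1 / 4, 3 / 8, by norm_num, by norm_num⟩
  have hsupp : ∀ x : E d, 3 / 8 < ‖x‖ → x ∉ tsupport f := by
    intro x hx hmem
    rw [f.tsupport_eq, Metric.mem_closedBall, dist_zero_right] at hmem
    exact absurd hmem (not_le.2 hx)
  have hb : ∀ j : ℕ, ∃ C, ∀ x, ‖iteratedFDeriv ℝ j f x‖ ≤ C := by
    intro j
    have hcd : ContDiff ℝ ∞ (f : E d → ℝ) := f.contDiff
    exact (hcd.continuous_iteratedFDeriv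
      (mod_cast le_top)).bounded_above_of_compact_support (f.hasCompactSupport.iteratedFDeriv j)
  choose C hC using hb
  refine ⟨f, 1 + ∑ j ∈ Finset.range (k + 1), |C j|, f.contDiff, ?_, ?_, ?_, ?_, ?_⟩
  · intro x hx
    apply f.one_of_mem_closedBall
    rw [Metric.mem_closedBall, dist_zero_right]
    exact hx
  · intro x hx j
    by_contra hne
    exact hsupp x hx (support_iteratedFDeriv_subset j hne)
  · intro x hx
    by_contra hne
    exact hsupp x hx (subset_tsupport _ hne)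
  · have : 0 ≤ ∑ j ∈ Finset.range (k + 1), |C j| := Finset.sum_nonneg fun _ _ => abs_nonneg _
    linarith
  · intro j hj x
    have h1 : |C j| ≤ ∑ j ∈ Finset.range (k + 1), |C j| :=
      Finset.single_le_sum (f := fun j => |C j|) (fun _ _ => abs_nonneg _)
        (Finset.mem_range.2 (by omega))
    linarith [hC j x, le_abs_self (C j)]

/-- one rescaled bump -/
lemma bump_scaled {φ : E d → ℝ} {B : ℝ} {k : ℕ} (hφ : ContDiff ℝ ∞ φ)
    (hB : ∀ j ≤ k, ∀ x, ‖iteratedFDeriv ℝ j φ x‖ ≤ B) {s : ℝ} (hs : 0 < s) (w v : E d) :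
    ContDiff ℝ ∞ (fun x => φ (s⁻¹ • (x - w)) • v) ∧
    (∀ j ≤ k, ∀ x, ‖iteratedFDeriv ℝ j (fun x => φ (s⁻¹ • (x - w)) • v) x‖ ≤
      ‖v‖ * (B * s⁻¹ ^ j)) ∧
    (∀ j x, (∀ i, iteratedFDeriv ℝ i φ (s⁻¹ • (x - w)) = 0) →
      iteratedFDeriv ℝ j (fun x => φ (s⁻¹ • (x - w)) • v) x = 0) := by
  set g : E d →L[ℝ] E d := s⁻¹ • ContinuousLinearMap.id ℝ (E d) with hg
  set L : ℝ →L[ℝ] E d := (ContinuousLinearMap.id ℝ ℝ).smulRight v with hL
  have hgn : ‖g‖ ≤ s⁻¹ := by
    rw [hg]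
    refine (norm_smul_le s⁻¹ (ContinuousLinearMap.id ℝ (E d))).trans ?_
    rw [Real.norm_eq_abs, abs_of_pos (by positivity)]
    calc s⁻¹ * ‖ContinuousLinearMap.id ℝ (E d)‖ ≤ s⁻¹ * 1 := by
          gcongr; exact ContinuousLinearMap.norm_id_le
      _ = s⁻¹ := mul_one _
  have hLn : ‖L‖ ≤ ‖v‖ := by
    apply ContinuousLinearMap.opNorm_le_bound _ (norm_nonneg _)
    intro t
    rw [hL, ContinuousLinearMap.smulRight_apply, norm_smul, mul_comm]
    rfl
  have hcomp : ContDiff ℝ ∞ (φ ∘ g) := hφ.comp g.contDiff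
  have hshift : ContDiff ℝ ∞ (fun x => (φ ∘ g) (x - w)) :=
    hcomp.comp (contDiff_id.sub contDiff_const)
  have hfun : (fun x => φ (s⁻¹ • (x - w)) • v) = L ∘ (fun x => (φ ∘ g) (x - w)) := by
    funext x
    simp [hL, hg]
  have hright : ∀ j x, iteratedFDeriv ℝ j (fun x => (φ ∘ g) (x - w)) x =
      (iteratedFDeriv ℝ j φ (g (x - w))).compContinuousLinearMap fun _ => g := by
    intro j x
    rw [iteratedFDeriv_comp_sub, g.iteratedFDeriv_comp_right hφ (x - w) (mod_cast le_top)]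
  have hgx : ∀ x, g (x - w) = s⁻¹ • (x - w) := by intro x; simp [hg]
  refine ⟨?_, ?_, ?_⟩
  · rw [hfun]; exact L.contDiff.comp hshift
  · intro j hj x
    rw [hfun]
    have h1 := L.norm_iteratedFDeriv_comp_left (f := fun x => (φ ∘ g) (x - w)) (x := x) (N := ∞)
      (n := j) hshift.contDiffAt (mod_cast le_top)
    refine h1.trans ?_
    rw [hright]
    have hB0 : 0 ≤ B := (norm_nonneg _).trans (hB 0 (Nat.zero_le _) 0)
    gcongr
    refine (ContinuousMultilinearMap.norm_compContinuousLinearMap_le _ _).trans ?_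
    rw [Finset.prod_const, Finset.card_univ, Fintype.card_fin]
    gcongr
    exact hB j hj _
  · intro j x hx
    rw [hfun]
    have h1 := L.norm_iteratedFDeriv_comp_left (f := fun x => (φ ∘ g) (x - w)) (x := x) (N := ∞)
      (n := j) hshift.contDiffAt (mod_cast le_top)
    rw [hright, hgx, hx j] at h1
    have h2 : (0 : ContinuousMultilinearMap ℝ (fun _ : Fin j => E d) ℝ).compContinuousLinearMap
        (fun _ => g) = 0 := by
      ext m; simp
    rw [h2, norm_zero, mul_zero] at h1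
    exact norm_le_zero_iff.1 h1

/-- prescribed values on caps, with small derivatives up to order `k` -/
lemma exists_map (d k : ℕ) {η : ℝ} (hη : 0 < η) : ∃ κ : ℝ, 0 < κ ∧ κ ≤ 1 / 8 ∧
    ∀ (s : ℝ), 0 < s → s ≤ 1 → ∀ (ι : Type) (S : Finset ι) (w b : ι → E d), Fam s w S →
    (∀ i ∈ S, ‖b i‖ ≤ κ) → ∃ a : E d → E d, ContDiff ℝ ∞ a ∧
      (∀ j ≤ k, ∀ x, ‖iteratedFDeriv ℝ j a x‖ ≤ η) ∧
      ∀ i ∈ S, ∀ e, ‖e - w i‖ ≤ s / 4 → a e = (s ^ k / 4) • b i := by
  classical
  obtain ⟨φ, B, hφ, h1, h2, h3, hB1, hB⟩ := exists_bump d k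
  have hB0 : 0 < B := by linarith
  refine ⟨min (1 / 8) (η / B), lt_min (by norm_num) (by positivity), min_le_left _ _, ?_⟩
  intro s hs hs1 ι S w b hF hb
  set F : ι → E d → E d := fun i x => φ (s⁻¹ • (x - w i)) • ((s ^ k / 4) • b i) with hFdef
  have hFc : ∀ i, ContDiff ℝ ∞ (F i) := fun i => (bump_scaled hφ hB hs (w i) _).1
  have hnorm : ∀ x (i : ι), ‖s⁻¹ • (x - w i)‖ = ‖x - w i‖ / s := by
    intro x i
    rw [norm_smul, norm_inv, Real.norm_eq_abs, abs_of_pos hs, inv_mul_eq_div]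
  have hfar : ∀ x, ∀ i ∈ S, ∀ i' ∈ S, i ≠ i' → ‖x - w i‖ ≤ 3 / 8 * s → 3 / 8 * s < ‖x - w i'‖ := by
    intro x i hi i' hi' hne hx
    have h4 := hF.sep i hi i' hi' hne
    have h5 : ‖w i - w i'‖ ≤ ‖x - w i‖ + ‖x - w i'‖ := by
      have : w i - w i' = (x - w i') - (x - w i) := by abel
      rw [this]
      exact (norm_sub_le _ _).trans (by linarith)
    linarith
  refine ⟨fun x => ∑ i ∈ S, F i x, ContDiff.sum fun i _ => hFc i, ?_, ?_⟩
  · intro j hj x
    rw [iteratedFDeriv_fun_sum_apply (fun i _ => ((hFc i).of_le (mod_cast le_top)).contDiffAt)]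
    by_cases hex : ∃ i ∈ S, ‖x - w i‖ ≤ 3 / 8 * s
    · obtain ⟨i, hi, hix⟩ := hex
      rw [Finset.sum_eq_single_of_mem i hi]
      · refine ((bump_scaled hφ hB hs (w i) _).2.1 j hj x).trans ?_
        have h4 : ‖(s ^ k / 4) • b i‖ ≤ s ^ k / 4 * (η / B) := by
          rw [norm_smul, Real.norm_eq_abs, abs_of_pos (by positivity)]
          gcongr
          exact (hb i hi).trans (min_le_right _ _)
        have h5 : s ^ k * s⁻¹ ^ j ≤ 1 := by
          rw [inv_pow, mul_inv_le_iff₀ (by positivity), one_mul]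
          exact pow_le_pow_of_le_one hs.le hs1 hj
        calc ‖(s ^ k / 4) • b i‖ * (B * s⁻¹ ^ j) ≤ (s ^ k / 4 * (η / B)) * (B * s⁻¹ ^ j) := by
              gcongr
          _ = (s ^ k * s⁻¹ ^ j) * (η / 4) := by field_simp
          _ ≤ 1 * (η / 4) := by gcongr
          _ ≤ η := by linarith
      · intro i' hi' hne
        apply (bump_scaled hφ hB hs (w i') _).2.2
        intro l
        apply h2
        rw [hnorm, lt_div_iff₀ hs]
        exact hfar x i hi i' hi' hne.symm hix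
    · rw [Finset.sum_eq_zero]
      · rw [norm_zero]; exact hη.le
      · intro i hi
        apply (bump_scaled hφ hB hs (w i) _).2.2
        intro l
        apply h2
        rw [hnorm, lt_div_iff₀ hs]
        by_contra hcon
        exact hex ⟨i, hi, not_lt.1 hcon⟩
  · intro i hi e he
    simp only
    rw [Finset.sum_eq_single_of_mem i hi]
    · simp only [hFdef]
      rw [h1 _ (by rw [hnorm, div_le_iff₀ hs]; linarith), one_smul]
    · intro i' hi' hne
      simp only [hFdef]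
      rw [h3 _ (by
        rw [hnorm, lt_div_iff₀ hs]
        exact hfar e i hi i' hi' hne.symm (by linarith)), zero_smul]

end Pool.Agent.H81.KAK
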