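import Pool.Agent.H53.Kak.Dual
import Pool.Agent.H81.KAK.Dirs
import Pool.Agent.H81.KAK.Smooth

/-!
# Zooming into a small window of a smooth congruence
-/

set_option autoImplicit false

open MeasureTheory ENNReal
open scoped RealInnerProductSpace ContDiff

namespace Pool.Agent.H81.KAK

open Pool.Agent.H53.Kak

variable {d : ℕ}

/-- The inequality with a loss for the subfamilies of one smooth line congruence: the centres are
`a (e i)`, all derivatives of order at most `k` of `a` are at most `η`. -/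
def SmoothLoss (d k : ℕ) (η q ε C : ℝ) : Prop :=
  ∀ δ : ℝ, 0 < δ → δ < 1 → ∀ (ι : Type) (S : Finset ι) (e : ι → E d) (a : E d → E d), Fam δ e S →
    ContDiff ℝ ∞ a → (∀ j ≤ k, ∀ x, ‖iteratedFDeriv ℝ j a x‖ ≤ η) →
    eLpNorm (fun x => (mu δ (fun i => a (e i)) e S x : ℝ)) (ENNReal.ofReal q) volume ≤
      ENNReal.ofReal (C * δ ^ (-ε) * (δ ^ ((d : ℝ) / q) * (S.card : ℝ) ^ (1 - 1 / (q * d))))

/-- the distance to a line is the length of the orthogonal component -/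
lemma perp_le {v e : E d} (he : ‖e‖ = 1) (t : ℝ) : ‖v - ⟪v, e⟫ • e‖ ≤ ‖v - t • e‖ := by
  have hee : ⟪e, e⟫ = (1 : ℝ) := by rw [real_inner_self_eq_norm_sq, he]; norm_num
  have h1 : v - ⟪v, e⟫ • e = (v - t • e) - ⟪v - t • e, e⟫ • e := by
    rw [inner_sub_left, inner_smul_left, hee]
    simp only [conj_trivial, mul_one]
    module
  rw [h1]
  exact norm_sub_proj_le he

lemma window {w e b y : E d} {s ρ : ℝ} (hw : ‖w‖ = 1) (he : ‖e‖ = 1) (hwe : ‖e - w‖ ≤ s / 4)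
    (hρ : 0 < ρ) (hρ1 : ρ ≤ 1) (hb : ‖b‖ ≤ 1 / 8) (hy : ‖y‖ ≤ 1 / 8)
    (hmem : y ∈ tube s b w) : ρ • y ∈ tube (2 * ρ * s) (ρ • b) e := by
  have hv : ‖y - b‖ ≤ 1 / 4 := (norm_sub_le _ _).trans (by linarith)
  have hs0 : 0 ≤ s := (norm_nonneg _).trans hmem.2
  have e0 : ρ • y - ρ • b = ρ • (y - b) := by module
  constructor
  · rw [e0, inner_smul_left]
    simp only [conj_trivial]
    rw [abs_mul, abs_of_pos hρ]
    have h1 := abs_real_inner_le_norm (y - b) e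
    rw [he, mul_one] at h1
    nlinarith [abs_nonneg ⟪y - b, e⟫]
  · rw [e0, inner_smul_left]
    simp only [conj_trivial]
    have e1 : ρ • (y - b) - (ρ * ⟪y - b, e⟫) • e = ρ • ((y - b) - ⟪y - b, e⟫ • e) := by module
    rw [e1, norm_smul, Real.norm_eq_abs, abs_of_pos hρ]
    have h1 : ‖(y - b) - ⟪y - b, e⟫ • e‖ ≤ 2 * s := by
      refine (perp_le he ⟪y - b, w⟫).trans ?_
      have e2 : (y - b) - ⟪y - b, w⟫ • e = ((y - b) - ⟪y - b, w⟫ • w) - ⟪y - b, w⟫ • (e - w) := by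
        module
      rw [e2]
      have h2 := abs_real_inner_le_norm (y - b) w
      rw [hw, mul_one] at h2
      calc ‖((y - b) - ⟪y - b, w⟫ • w) - ⟪y - b, w⟫ • (e - w)‖
          ≤ ‖(y - b) - ⟪y - b, w⟫ • w‖ + ‖⟪y - b, w⟫ • (e - w)‖ := norm_sub_le _ _
        _ = ‖(y - b) - ⟪y - b, w⟫ • w‖ + |⟪y - b, w⟫| * ‖e - w‖ := by
            rw [norm_smul, Real.norm_eq_abs]
        _ ≤ s + 1 / 4 * (s / 4) := by
            gcongr
            · exact hmem.2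
            · exact h2.trans hv
        _ ≤ 2 * s := by linarith
    calc ρ * ‖(y - b) - ⟪y - b, e⟫ • e‖ ≤ ρ * (2 * s) := by gcongr
      _ = 2 * ρ * s := by ring

lemma lintegral_scale {ρ : ℝ} (hρ : 0 < ρ) (F : E d → ℝ≥0∞) (hF : Measurable F) :
    ∫⁻ y, F (ρ • y) = ENNReal.ofReal ((ρ ^ (d + 1))⁻¹) * ∫⁻ x, F x := by
  have h1 : ∫⁻ y, F (ρ • y) = ∫⁻ x, F x ∂(Measure.map (fun y : E d => ρ • y) volume) := by
    rw [lintegral_map hF (measurable_const_smul ρ)]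
  rw [h1, Measure.map_addHaar_smul volume hρ.ne', lintegral_smul_measure, smul_eq_mul,
    finrank_euclideanSpace_fin, abs_of_pos (by positivity)]

/-- the new family has high multiplicity in the window -/
lemma mu_window {ι : Type} {m : Type} [Fintype m] {s ρ κ : ℝ} (hρ : 0 < ρ) (hρ1 : ρ ≤ 1)
    (hκ : κ ≤ 1 / 8) {S : Finset ι} {w b : ι → E d} (hF : Fam s w S) (hb : ∀ i ∈ S, ‖b i‖ ≤ κ)
    {f : ι → m → E d} (hf1 : ∀ i ∈ S, ∀ j, ‖f i j‖ = 1) (hf2 : ∀ i ∈ S, ∀ j, ‖f i j - w i‖ ≤ s / 4)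
    {a : E d → E d} (ha : ∀ i ∈ S, ∀ e, ‖e - w i‖ ≤ s / 4 → a e = ρ • b i) {y : E d}
    (hy : ‖y‖ ≤ κ) :
    Fintype.card m * mu s b w S y ≤
      mu (2 * ρ * s) (fun p : ι × m => a (f p.1 p.2)) (fun p => f p.1 p.2)
        (S ×ˢ Finset.univ) (ρ • y) := by
  classical
  unfold mu
  have h1 : (S.filter (fun j => y ∈ tube s (b j) (w j))) ×ˢ (Finset.univ : Finset m) ⊆
      (S ×ˢ (Finset.univ : Finset m)).filter
        (fun p => ρ • y ∈ tube (2 * ρ * s) (a (f p.1 p.2)) (f p.1 p.2)) := by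
    rintro ⟨i, j⟩ hp
    rw [Finset.mem_product, Finset.mem_filter] at hp
    rw [Finset.mem_filter, Finset.mem_product]
    refine ⟨⟨hp.1.1, Finset.mem_univ _⟩, ?_⟩
    simp only
    rw [ha i hp.1.1 _ (hf2 i hp.1.1 j)]
    exact window (hF.unit i hp.1.1) (hf1 i hp.1.1 j) (hf2 i hp.1.1 j) hρ hρ1
      ((hb i hp.1.1).trans hκ) (hy.trans hκ) hp.1.2
  have h2 := Finset.card_le_card h1
  rw [Finset.card_product, Finset.card_univ] at h2
  rw [mul_comm]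
  convert h2

/-- the constant of the zoom -/
noncomputable def KZ (d : ℕ) : ℝ := 4 ^ (d + 1) * (12 * d)

lemma KZ_nonneg (d : ℕ) : 0 ≤ KZ d := by unfold KZ; positivity

lemma zoom_alg {q ε C s N M : ℝ} {k : ℕ} (hd : 1 ≤ d) (hq : 1 ≤ q) (hC : 0 ≤ C)
    (hs : 0 < s) (hN : 0 ≤ N) (hM : 0 < M) (hMl : (1 / (12 * d * s ^ k)) ^ d ≤ M) :
    ((s ^ k / 4) ^ (d + 1))⁻¹ * ((M ^ q)⁻¹ * (C * (2 * (s ^ k / 4) * s) ^ (-ε) *
      ((2 * (s ^ k / 4) * s) ^ ((d : ℝ) / q) * (N * M) ^ (1 - 1 / (q * d)))) ^ q) ≤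
    KZ d * ((C * (2 * (s ^ k / 4) * s) ^ (-ε)) ^ q * (s ^ d * N ^ (q - 1 / (d : ℝ)))) := by
  have hd0 : (0 : ℝ) < d := by exact_mod_cast hd
  have hd1 : (1 : ℝ) ≤ d := by exact_mod_cast hd
  have hq0 : 0 < q := by linarith
  set δ : ℝ := 2 * (s ^ k / 4) * s with hδdef
  have hδ : 0 < δ := by positivity
  have hinv : 1 / (d : ℝ) ≤ 1 := by rw [div_le_one hd0]; exact hd1
  set A : ℝ := (C * δ ^ (-ε)) ^ q with hA
  have hA0 : 0 ≤ A := by positivity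
  have e1 : (δ ^ ((d : ℝ) / q)) ^ q = δ ^ d := by
    rw [← Real.rpow_mul hδ.le, ← Real.rpow_natCast δ d]
    congr 1; field_simp
  have e2 : ((N * M) ^ (1 - 1 / (q * d))) ^ q = N ^ (q - 1 / (d : ℝ)) * M ^ (q - 1 / (d : ℝ)) := by
    rw [← Real.rpow_mul (by positivity), ← Real.mul_rpow hN hM.le]
    congr 1; field_simp
  have e3 : (C * δ ^ (-ε) * (δ ^ ((d : ℝ) / q) * (N * M) ^ (1 - 1 / (q * d)))) ^ q =
      A * (δ ^ d * (N ^ (q - 1 / (d : ℝ)) * M ^ (q - 1 / (d : ℝ)))) := by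
    rw [Real.mul_rpow (z := q) (x := C * δ ^ (-ε)) (by positivity) (by positivity),
      Real.mul_rpow (x := δ ^ ((d : ℝ) / q)) (by positivity) (by positivity), e1, e2]
  have e4 : (M ^ q)⁻¹ * M ^ (q - 1 / (d : ℝ)) = (M ^ (1 / (d : ℝ)))⁻¹ := by
    rw [Real.rpow_sub hM]
    have : M ^ q ≠ 0 := (Real.rpow_pos_of_pos hM q).ne'
    field_simp
  have e5 : (M ^ (1 / (d : ℝ)))⁻¹ ≤ 12 * d * s ^ k := by
    have h1 : 1 / (12 * d * s ^ k) ≤ M ^ (1 / (d : ℝ)) := by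
      calc 1 / (12 * d * s ^ k) = ((1 / (12 * d * s ^ k)) ^ d) ^ (1 / (d : ℝ)) := by
            rw [← Real.rpow_natCast (1 / (12 * d * s ^ k)) d, ← Real.rpow_mul (by positivity),
              mul_one_div_cancel hd0.ne', Real.rpow_one]
        _ ≤ M ^ (1 / (d : ℝ)) := Real.rpow_le_rpow (by positivity) hMl (by positivity)
    rw [inv_le_comm₀ (Real.rpow_pos_of_pos hM _) (by positivity), ← one_div]
    exact h1
  rw [e3]
  calc ((s ^ k / 4) ^ (d + 1))⁻¹ * ((M ^ q)⁻¹ *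
        (A * (δ ^ d * (N ^ (q - 1 / (d : ℝ)) * M ^ (q - 1 / (d : ℝ))))))
      = (A * N ^ (q - 1 / (d : ℝ))) * (((s ^ k / 4) ^ (d + 1))⁻¹ * δ ^ d *
        ((M ^ q)⁻¹ * M ^ (q - 1 / (d : ℝ)))) := by ring
    _ = (A * N ^ (q - 1 / (d : ℝ))) * (((s ^ k / 4) ^ (d + 1))⁻¹ * δ ^ d *
        (M ^ (1 / (d : ℝ)))⁻¹) := by rw [e4]
    _ ≤ (A * N ^ (q - 1 / (d : ℝ))) * (((s ^ k / 4) ^ (d + 1))⁻¹ * δ ^ d *
        (12 * d * s ^ k)) := by gcongr
    _ ≤ (A * N ^ (q - 1 / (d : ℝ))) * (KZ d * s ^ d) := by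
        apply mul_le_mul_of_nonneg_left _ (by positivity)
        have h1 : ((s ^ k / 4) ^ (d + 1))⁻¹ * δ ^ d * (12 * d * s ^ k) =
            (4 ^ (d + 1) * (12 * d)) * s ^ d * (1 / 2) ^ d := by
          rw [hδdef, div_pow, pow_succ (s ^ k) d]
          have h2 : (2 * (s ^ k / 4) * s) ^ d = (s ^ k) ^ d * s ^ d * (1 / 2) ^ d := by
            rw [← mul_pow, ← mul_pow]; congr 1; ring
          rw [h2]
          have h3 : (s ^ k) ^ d ≠ 0 := by positivity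
          have h4 : s ^ k ≠ 0 := by positivity
          field_simp
        rw [h1, KZ]
        have h2 : (1 / 2 : ℝ) ^ d ≤ 1 := pow_le_one₀ (by norm_num) (by norm_num)
        have h3 : 0 ≤ (4 ^ (d + 1) * (12 * d)) * s ^ d := by positivity
        nlinarith
    _ = _ := by ring

lemma zoom_gen {k : ℕ} {η q ε C κ : ℝ} (hd : 1 ≤ d) (hq : 1 ≤ q) (hC : 0 ≤ C)
    (hκ : κ ≤ 1 / 8) (h : SmoothLoss d k η q ε C) {s : ℝ} (hs : 0 < s) (hs1 : s < 1) {ι : Type}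
    (S : Finset ι) (w b : ι → E d) (hF : Fam s w S) (hb : ∀ i ∈ S, ‖b i‖ ≤ κ)
    {a : E d → E d} (ha1 : ContDiff ℝ ∞ a) (ha2 : ∀ j ≤ k, ∀ x, ‖iteratedFDeriv ℝ j a x‖ ≤ η)
    (ha3 : ∀ i ∈ S, ∀ e, ‖e - w i‖ ≤ s / 4 → a e = (s ^ k / 4) • b i)
    {T : Type} [Fintype T] {f : ι → T → E d}
    (hf1 : ∀ i ∈ S, ∀ j, ‖f i j‖ = 1) (hf2 : ∀ i ∈ S, ∀ j, ‖f i j - w i‖ ≤ s / 4)
    (hf3 : ∀ i ∈ S, ∀ j j', j ≠ j' → 2 * (s ^ k / 4) * s ≤ ‖f i j - f i j'‖)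
    (hMpos : 0 < Fintype.card T)
    (hMl : (1 / (12 * d * s ^ k)) ^ d ≤ (Fintype.card T : ℝ)) :
    ∫⁻ y in Metric.closedBall 0 κ, (mu s b w S y : ℝ≥0∞) ^ q ≤
      ENNReal.ofReal (KZ d * ((C * (2 * (s ^ k / 4) * s) ^ (-ε)) ^ q *
        (s ^ d * (S.card : ℝ) ^ (q - 1 / (d : ℝ))))) := by
  classical
  have hd0 : (0 : ℝ) < d := by exact_mod_cast hd
  have hq0 : 0 < q := by linarith
  set ρ : ℝ := s ^ k / 4 with hρdef
  have hρ : 0 < ρ := by positivity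
  have hsk : s ^ k ≤ 1 := pow_le_one₀ hs.le hs1.le
  have hρ4 : ρ ≤ 1 / 4 := by rw [hρdef]; linarith
  have hρ1 : ρ ≤ 1 := by linarith
  set δ : ℝ := 2 * ρ * s with hδdef
  have hδ : 0 < δ := by positivity
  have hδs : δ ≤ s / 2 := by rw [hδdef]; nlinarith
  have hδ1 : δ < 1 := by linarith
  have hfam : Fam δ (fun p : ι × T => f p.1 p.2) (S ×ˢ (Finset.univ : Finset T)) := by
    constructor
    · rintro ⟨i, j⟩ hp
      rw [Finset.mem_product] at hp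
      exact hf1 i hp.1 j
    · rintro ⟨i, j⟩ hp ⟨i', j'⟩ hp' hne
      rw [Finset.mem_product] at hp hp'
      simp only at hp hp' ⊢
      by_cases hii : i = i'
      · subst hii
        apply hf3 i hp.1
        intro hjj
        exact hne (by rw [hjj])
      · have h1 := hF.sep i hp.1 i' hp'.1 hii
        have h2 := hf2 i hp.1 j
        have h3 := hf2 i' hp'.1 j'
        have h4 : ‖w i - w i'‖ ≤ ‖f i j - f i' j'‖ + ‖f i j - w i‖ + ‖f i' j' - w i'‖ := by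
          have : w i - w i' = (f i j - f i' j') - (f i j - w i) + (f i' j' - w i') := by abel
          rw [this]
          calc _ ≤ ‖(f i j - f i' j') - (f i j - w i)‖ + ‖f i' j' - w i'‖ := norm_add_le _ _
            _ ≤ _ := by gcongr; exact norm_sub_le _ _
        linarith
  have hmain := h δ hδ hδ1 (ι × T) (S ×ˢ (Finset.univ : Finset T)) (fun p => f p.1 p.2) a hfam
    ha1 ha2
  rw [eLpNorm_mu _ _ _ _ hq0] at hmain
  set M : ℕ := Fintype.card T with hMdef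
  have hMpos' : (0 : ℝ) < M := by exact_mod_cast hMpos
  have hcard : ((S ×ˢ (Finset.univ : Finset T)).card : ℝ) = (S.card : ℝ) * M := by
    rw [Finset.card_product, Finset.card_univ]; push_cast; rfl
  rw [hcard] at hmain
  set X : ℝ := C * δ ^ (-ε) * (δ ^ ((d : ℝ) / q) * ((S.card : ℝ) * M) ^ (1 - 1 / (q * d)))
    with hX
  have hX0 : 0 ≤ X := by positivity
  set G : E d → ℝ≥0∞ := fun x => (mu δ (fun p : ι × T => a (f p.1 p.2)) (fun p => f p.1 p.2)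
    (S ×ˢ (Finset.univ : Finset T)) x : ℝ≥0∞) ^ q with hG
  have hGm : Measurable G := (measurable_muE _ _ _ _).pow_const q
  have hGint : ∫⁻ x, G x ≤ ENNReal.ofReal (X ^ q) := by
    have h1 : (∫⁻ x, G x) = ((∫⁻ x, G x) ^ (1 / q)) ^ q := by
      rw [← ENNReal.rpow_mul, one_div_mul_cancel hq0.ne', ENNReal.rpow_one]
    rw [h1, ← ENNReal.ofReal_rpow_of_nonneg hX0 hq0.le]
    exact ENNReal.rpow_le_rpow hmain hq0.le
  have hpt : ∀ y ∈ Metric.closedBall (0 : E d) κ,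
      (M : ℝ≥0∞) ^ q * (mu s b w S y : ℝ≥0∞) ^ q ≤ G (ρ • y) := by
    intro y hy
    rw [Metric.mem_closedBall, dist_zero_right] at hy
    have h1 := mu_window (m := T) hρ hρ1 hκ hF hb hf1 hf2 ha3 hy
    rw [← ENNReal.mul_rpow_of_nonneg _ _ hq0.le]
    apply ENNReal.rpow_le_rpow _ hq0.le
    exact_mod_cast h1
  have hMq : (M : ℝ≥0∞) ^ q = ENNReal.ofReal ((M : ℝ) ^ q) := by
    rw [← ENNReal.ofReal_natCast, ENNReal.ofReal_rpow_of_nonneg (by positivity) hq0.le]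
  have hstep : ENNReal.ofReal ((M : ℝ) ^ q) * ∫⁻ y in Metric.closedBall 0 κ,
      (mu s b w S y : ℝ≥0∞) ^ q ≤ ENNReal.ofReal ((ρ ^ (d + 1))⁻¹ * X ^ q) := by
    rw [← hMq, ← lintegral_const_mul _ ((measurable_muE _ _ _ _).pow_const q)]
    calc ∫⁻ y in Metric.closedBall 0 κ, (M : ℝ≥0∞) ^ q * (mu s b w S y : ℝ≥0∞) ^ q
        ≤ ∫⁻ y in Metric.closedBall 0 κ, G (ρ • y) :=
          setLIntegral_mono' Metric.isClosed_closedBall.measurableSet hpt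
      _ ≤ ∫⁻ y, G (ρ • y) := setLIntegral_le_lintegral _ _
      _ = ENNReal.ofReal ((ρ ^ (d + 1))⁻¹) * ∫⁻ x, G x := lintegral_scale hρ G hGm
      _ ≤ ENNReal.ofReal ((ρ ^ (d + 1))⁻¹) * ENNReal.ofReal (X ^ q) := by gcongr
      _ = _ := (ENNReal.ofReal_mul (by positivity)).symm
  have hMq0 : 0 < (M : ℝ) ^ q := Real.rpow_pos_of_pos hMpos' q
  have hfin : ∫⁻ y in Metric.closedBall 0 κ, (mu s b w S y : ℝ≥0∞) ^ q ≤
      ENNReal.ofReal ((ρ ^ (d + 1))⁻¹ * (((M : ℝ) ^ q)⁻¹ * X ^ q)) := by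
    have hne : ENNReal.ofReal ((M : ℝ) ^ q) ≠ 0 := by simpa using hMq0
    have h2 := (ENNReal.mul_le_iff_le_inv hne ENNReal.ofReal_ne_top).1 hstep
    refine h2.trans (le_of_eq ?_)
    rw [← ENNReal.ofReal_inv_of_pos hMq0, ← ENNReal.ofReal_mul (by positivity)]
    congr 1; ring
  refine hfin.trans (ENNReal.ofReal_le_ofReal ?_)
  exact zoom_alg hd hq hC hs (Nat.cast_nonneg _) hMpos' hMl

lemma zoom_core {k : ℕ} {η q ε C κ : ℝ} (hd : 1 ≤ d) (hq : 1 ≤ q) (hC : 0 ≤ C)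
    (hκ : κ ≤ 1 / 8) (hmap : ∀ (s : ℝ), 0 < s → s ≤ 1 → ∀ (ι : Type) (S : Finset ι)
      (w b : ι → E d), Fam s w S → (∀ i ∈ S, ‖b i‖ ≤ κ) → ∃ a : E d → E d, ContDiff ℝ ∞ a ∧
      (∀ j ≤ k, ∀ x, ‖iteratedFDeriv ℝ j a x‖ ≤ η) ∧
      ∀ i ∈ S, ∀ e, ‖e - w i‖ ≤ s / 4 → a e = (s ^ k / 4) • b i)
    (h : SmoothLoss d k η q ε C) {s : ℝ} (hs : 0 < s) (hs1 : s < 1) {ι : Type} (S : Finset ι)
    (w b : ι → E d) (hF : Fam s w S) (hb : ∀ i ∈ S, ‖b i‖ ≤ κ) :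
    ∫⁻ y in Metric.closedBall 0 κ, (mu s b w S y : ℝ≥0∞) ^ q ≤
      ENNReal.ofReal (KZ d * ((C * (2 * (s ^ k / 4) * s) ^ (-ε)) ^ q *
        (s ^ d * (S.card : ℝ) ^ (q - 1 / (d : ℝ))))) := by
  classical
  have hd0 : (0 : ℝ) < d := by exact_mod_cast hd
  obtain ⟨a, ha1, ha2, ha3⟩ := hmap s hs hs1.le ι S w b hF hb
  have hδ : 0 < 2 * (s ^ k / 4) * s := by positivity
  have hdirs : ∀ i ∈ S, ∃ f : (Fin d → Fin (side d (s / 4 / (2 * (s ^ k / 4) * s)))) → E d,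
      (∀ m, ‖f m‖ = 1) ∧ (∀ m, ‖f m - w i‖ ≤ s / 4) ∧
      ∀ m m', m ≠ m' → 2 * (s ^ k / 4) * s ≤ ‖f m - f m'‖ := fun i hi =>
    exists_dirs hd (hF.unit i hi) hδ (by positivity) (by linarith)
  choose! f hf1 hf2 hf3 using hdirs
  refine zoom_gen hd hq hC hκ h hs hs1 S w b hF hb ha1 ha2 ha3 hf1 hf2 hf3 ?_ ?_
  · rw [Fintype.card_fun, Fintype.card_fin, Fintype.card_fin]
    exact pow_pos (side_pos _ _) _
  · rw [Fintype.card_fun, Fintype.card_fin, Fintype.card_fin]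
    push_cast
    gcongr
    refine le_trans (le_of_eq ?_) (le_side d _)
    field_simp
    norm_num

end Pool.Agent.H81.KAK
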